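import Pool.Agent.H69L.TP.Field
import Pool.Agent.H70.ES.Sc

/-!
Words, empty gaps, the field of the marks.
-/

set_option autoImplicit false
set_option linter.unusedSectionVars false

namespace Pool.Agent.H69L.TP

open Finset Pool.Agent.H84L Pool.Agent.H93.EA

/-- The word of a point. -/
def wd {α : Type} (ρ : ℕ → α → ℕ) (m C : ℕ) (τ : ℕ → ℕ) (a : α) : ℕ → Bool :=
  fun i => decide (i < C ∧ ρ (τ i) a < m)

/-- The set of the empty gaps of a configuration. -/
def eg (C N : ℕ) (τ : ℕ → ℕ) : Finset ℕ :=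
  (range C).filter fun g => (g = 0 ∧ τ (C - 1) = N) ∨ (0 < g ∧ τ g = τ (g - 1))

/-- A configuration. -/
structure Cfg (C N : ℕ) (τ : ℕ → ℕ) : Prop where
  zero : τ 0 = 0
  mono : ∀ i j, i ≤ j → j < C → τ i ≤ τ j
  le : ∀ i, τ i ≤ N

/-- The word is constant over the gaps of `I`. -/
def Cst (C : ℕ) (I : Finset ℕ) (w : ℕ → Bool) : Prop :=
  (∀ g ∈ I, 0 < g → g < C → w g = w (g - 1)) ∧ (0 ∈ I → w (C - 1) = !w 0)

/-- Coexisting words. -/
def Cx (C : ℕ) (u v : ℕ → Bool) : Prop :=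
  (∃ k, (∀ i < C, i < k → u i = true → v i = true) ∧ ∀ i < C, k ≤ i → v i = true → u i = true) ∨
  (∃ k, (∀ i < C, i < k → v i = true → u i = true) ∧ ∀ i < C, k ≤ i → u i = true → v i = true)

/-- Marks: bases, windows of the two kinds. -/
structure Mk where
  Z : Finset ℕ
  Wp : Finset ℕ
  Wm : Finset ℕ

/-- The pair inequality of two words with marks. -/
def PI (c r : ℕ) (u v : ℕ → Bool) (x y : Mk) : Prop :=
  ((range c).filter fun i => ¬ (u i = v i)).card ≤
    ((range r).filter fun j => u (c + j) = v (c + j) ∧ (j ∈ x.Z ∨ j ∈ y.Z)).card +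
    ((range r).filter fun j => ¬ (u (c + j) = v (c + j)) ∧ j ∈ x.Z ∧ j ∈ y.Z).card +
    ((range c).filter fun i => i ∈ x.Wp ∧ i ∈ y.Wm).card +
    ((range c).filter fun i => i ∈ x.Wm ∧ i ∈ y.Wp).card

/-- The mark of a base. -/
def bm (x : Mk) (j : ℕ) : ℝ := if j ∈ x.Z then 1 else 0

/-- The marks of a window. -/
def wm (x : Mk) (i : ℕ) : ℝ := (if i ∈ x.Wp then 1 else 0) + (if i ∈ x.Wm then 1 else 0)

/-- The field of one point; `δ` is `k r / L`. -/
noncomputable def vf (c r : ℕ) (δ : ℝ) (x : Mk) (g : ℕ) : ℝ :=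
  if g = 0 then bm x 0 - wm x (c - 1) + δ
  else if g < r then bm x g - bm x (g - 1)
  else if g = r then (wm x 0 - bm x (r - 1)) + (bm x 0 - wm x (c - 1))
  else wm x (g - r) - wm x (g - r - 1)

lemma bm_nonneg (x : Mk) (j : ℕ) : 0 ≤ bm x j := by
  unfold bm
  split_ifs <;> norm_num

lemma bm_le (x : Mk) (j : ℕ) : bm x j ≤ 1 := by
  unfold bm
  split_ifs <;> norm_num

lemma wm_nonneg (x : Mk) (j : ℕ) : 0 ≤ wm x j := by
  unfold wm
  split_ifs <;> norm_num

lemma wm_le (x : Mk) (j : ℕ) : wm x j ≤ 2 := by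
  unfold wm
  split_ifs <;> norm_num

lemma abs_vf {c r : ℕ} {δ : ℝ} (h0 : 0 ≤ δ) (h1 : δ ≤ 1) (x : Mk) (g : ℕ) : |vf c r δ x g| ≤ 3 := by
  unfold vf
  have a1 := bm_nonneg x 0
  have a2 := bm_nonneg x g
  have a3 := bm_nonneg x (g - 1)
  have a4 := bm_nonneg x (r - 1)
  have b1 := bm_le x 0
  have b2 := bm_le x g
  have b3 := bm_le x (g - 1)
  have b4 := bm_le x (r - 1)
  have c1 := wm_nonneg x (c - 1)
  have c2 := wm_nonneg x 0
  have c3 := wm_nonneg x (g - r)
  have c4 := wm_nonneg x (g - r - 1)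
  have d1 := wm_le x (c - 1)
  have d2 := wm_le x 0
  have d3 := wm_le x (g - r)
  have d4 := wm_le x (g - r - 1)
  rw [abs_le]
  split_ifs <;> constructor <;> linarith

/-- The field has sum zero without the component 0. -/
lemma vf_sum {c r : ℕ} (hc : 0 < c) (hr : 0 < r) (δ : ℝ) (x : Mk) :
    ∑ j ∈ range (c + r - 1), vf c r δ x (j + 1) = 0 := by
  have e : c + r - 1 = (r - 1) + (1 + (c - 1)) := by omega
  rw [e, Finset.sum_range_add, Finset.sum_range_add]
  have h1 : ∑ j ∈ range (r - 1), vf c r δ x (j + 1) = bm x (r - 1) - bm x 0 := by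
    rw [← Finset.sum_range_sub]
    refine Finset.sum_congr rfl fun j hj => ?_
    have := Finset.mem_range.1 hj
    unfold vf
    rw [if_neg (by omega), if_pos (by omega), Nat.add_sub_cancel]
  have h2 : ∑ j ∈ range 1, vf c r δ x ((r - 1) + j + 1) =
      (wm x 0 - bm x (r - 1)) + (bm x 0 - wm x (c - 1)) := by
    rw [Finset.sum_range_one]
    unfold vf
    rw [if_neg (by omega), if_neg (by omega), if_pos (by omega)]
  have h3 : ∑ j ∈ range (c - 1), vf c r δ x ((r - 1) + (1 + j) + 1) = wm x (c - 1) - wm x 0 := by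
    rw [← Finset.sum_range_sub]
    refine Finset.sum_congr rfl fun j hj => ?_
    have := Finset.mem_range.1 hj
    unfold vf
    rw [if_neg (by omega), if_neg (by omega), if_neg (by omega)]
    have e1 : (r - 1) + (1 + j) + 1 - r = j + 1 := by omega
    rw [e1, Nat.add_sub_cancel]
  rw [h1, h2, h3]
  ring

/-- The rule. -/
structure Rule (c r : ℕ) where
  /-- the marks of a word for a set of empty gaps -/
  z : (ℕ → Bool) → Finset ℕ → Mk
  hZ : ∀ w I, (z w I).Z ⊆ range r
  hWp : ∀ w I, (z w I).Wp ⊆ range c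
  hWm : ∀ w I, (z w I).Wm ⊆ range c
  count : ∀ w I, Cst (c + r) I w → (z w I).Z.card + (z w I).Wp.card + (z w I).Wm.card = c
  pair : ∀ u v I I', Cx (c + r) u v → Cst (c + r) I u → Cst (c + r) I' v →
    PI c r u v (z u I) (z v I')
  const : ∀ w I, Cst (c + r) I w → (∀ i < c + r, w i = w 0) →
    0 ∉ (z w I).Z ∧ (c - 1 ∈ (z w I).Wp ∨ c - 1 ∈ (z w I).Wm)

/-- The faces: the field points inwards. -/
def Inward {c r : ℕ} (R : Rule c r) (δ : ℝ) : Prop :=
  ∀ (α : Type) [Fintype α] (N m : ℕ) (ρ : ℕ → α → ℕ), ASeq N ρ → Fintype.card α = 2 * m →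
    ∀ τ : ℕ → ℕ, Cfg (c + r) N τ → ∀ g ∈ eg (c + r) N τ,
      0 ≤ ∑ a, vf c r δ (R.z (wd ρ m (c + r) τ a) (eg (c + r) N τ)) g

variable {α : Type} [Fintype α] {N : ℕ} {ρ : ℕ → α → ℕ}

lemma wd_cst (h : ASeq N ρ) {m C : ℕ} (hm : Fintype.card α = 2 * m) (hC : 2 ≤ C) {τ : ℕ → ℕ}
    (hτ : Cfg C N τ) (a : α) : Cst C (eg C N τ) (wd ρ m C τ a) := by
  classical
  constructor
  · intro g hg h0 hgC
    unfold eg at hg
    rw [Finset.mem_filter] at hg
    have h1 : τ g = τ (g - 1) := by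
      rcases hg.2 with h2 | h2
      · omega
      · exact h2.2
    unfold wd
    rw [h1]
    rw [decide_eq_decide]
    constructor
    · rintro ⟨_, h3⟩
      exact ⟨by omega, h3⟩
    · rintro ⟨_, h3⟩
      exact ⟨hgC, h3⟩
  · intro hg
    unfold eg at hg
    rw [Finset.mem_filter] at hg
    have h1 : τ (C - 1) = N := by
      rcases hg.2 with h2 | h2
      · exact h2.2
      · omega
    unfold wd
    rw [h1, hτ.zero]
    have h2 := rev h a
    have e1 : decide (C - 1 < C ∧ ρ N a < m) = decide (ρ N a < m) := by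
      rw [decide_eq_decide]
      exact and_iff_right (by omega)
    have e2 : decide (0 < C ∧ ρ 0 a < m) = decide (ρ 0 a < m) := by
      rw [decide_eq_decide]
      exact and_iff_right (by omega)
    rw [e1, e2]
    by_cases h3 : ρ 0 a < m
    · rw [decide_eq_true h3, decide_eq_false (by omega)]
      rfl
    · rw [decide_eq_false h3, decide_eq_true (by omega)]
      rfl

lemma wd_cx (h : ASeq N ρ) {m C : ℕ} {τ : ℕ → ℕ} (hτ : Cfg C N τ) (a b : α) :
    Cx C (wd ρ m C τ a) (wd ρ m C τ b) := by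
  classical
  have key : ∀ a b : α, ρ 0 a < ρ 0 b → ∃ k,
      (∀ i < C, i < k → wd ρ m C τ b i = true → wd ρ m C τ a i = true) ∧
      ∀ i < C, k ≤ i → wd ρ m C τ a i = true → wd ρ m C τ b i = true := by
    intro a b hab
    obtain ⟨θ, hθ, h1⟩ := h.once a b hab
    by_cases hex : ∃ i, i < C ∧ θ < τ i
    · refine ⟨Nat.find hex, ?_, ?_⟩
      · intro i hi hik hb
        have h2 := Nat.find_min hex hik
        unfold wd at hb ⊢
        rw [decide_eq_true_iff] at hb ⊢
        have h3 := (h1 (τ i) (hτ.le i)).1 (by omega)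
        exact ⟨hi, by omega⟩
      · intro i hi hik ha
        have h2 := Nat.find_spec hex
        have h4 := hτ.mono _ _ hik hi
        unfold wd at ha ⊢
        rw [decide_eq_true_iff] at ha ⊢
        have h3 := (h1 (τ i) (hτ.le i)).2 (by omega)
        exact ⟨hi, by omega⟩
    · refine ⟨C, ?_, ?_⟩
      · intro i hi hik hb
        push Not at hex
        have h2 := hex i hi
        unfold wd at hb ⊢
        rw [decide_eq_true_iff] at hb ⊢
        have h3 := (h1 (τ i) (hτ.le i)).1 h2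
        exact ⟨hi, by omega⟩
      · intro i hi hik
        omega
  rcases lt_trichotomy (ρ 0 a) (ρ 0 b) with h1 | h1 | h1
  · exact Or.inr (key a b h1)
  · have e : a = b := h.inj 0 (Nat.zero_le _) h1
    subst e
    exact Or.inl ⟨0, fun i _ _ h => h, fun i _ _ h => h⟩
  · exact Or.inl (key b a h1)

end Pool.Agent.H69L.TP
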