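import Pool.Agent.H69L.TP.Rule
import Pool.Agent.H12.TP.Round

/-!
Marks for an allowable sequence from a rule whose field points inwards.
-/

set_option autoImplicit false
set_option linter.unusedSectionVars false

namespace Pool.Agent.H69L.TP

open Finset Pool.Agent.H84L Pool.Agent.H93.EA Pool.Agent.H70.ES
open scoped Classical

/-- The faces: the field points inwards up to `σ`. -/
def InwardS {c r : ℕ} (R : Rule c r) (δ σ : ℝ) : Prop :=
  ∀ (α : Type) [Fintype α] (N m : ℕ) (ρ : ℕ → α → ℕ), ASeq N ρ → Fintype.card α = 2 * m →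
    ∀ τ : ℕ → ℕ, Cfg (c + r) N τ → ∀ g ∈ eg (c + r) N τ,
      -σ ≤ ∑ a, vf c r δ (R.z (wd ρ m (c + r) τ a) (eg (c + r) N τ)) g

lemma Inward.slack {c r : ℕ} {R : Rule c r} {δ : ℝ} (h : Inward R δ) : InwardS R δ 0 := by
  intro α _ N m ρ hρ hm τ hτ g hg
  rw [neg_zero]
  exact h α N m ρ hρ hm τ hτ g hg

/-- The positions as a function on the naturals. -/
def ex {l : ℕ} (t : Fin (l + 1) → ℕ) (i : ℕ) : ℕ := if h : i < l + 1 then t ⟨i, h⟩ else 0

lemma ex_lt {l : ℕ} (t : Fin (l + 1) → ℕ) {i : ℕ} (h : i < l + 1) : ex t i = t ⟨i, h⟩ := by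
  unfold ex
  rw [dif_pos h]

lemma ex_cfg {l N : ℕ} {t : Fin (l + 1) → ℕ} (ht : Adm N t) : Cfg (l + 1) N (ex t) := by
  refine ⟨?_, ?_, ?_⟩
  · rw [ex_lt t (Nat.succ_pos l)]
    exact ht.2.2 _ rfl
  · intro i j hij hj
    rw [ex_lt t hj, ex_lt t (lt_of_le_of_lt hij hj)]
    exact ht.1 hij
  · intro i
    unfold ex
    split_ifs
    · exact ht.2.1 _
    · exact Nat.zero_le _

/-- A word on `C` lines as a function on the naturals. -/
def exw {C : ℕ} (w : Fin C → Bool) (i : ℕ) : Bool := if h : i < C then w ⟨i, h⟩ else false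

section

variable {α : Type} [Fintype α] {N : ℕ} {ρ : ℕ → α → ℕ}

lemma exw_wd (m C : ℕ) (τ : ℕ → ℕ) (a : α) :
    exw (fun j : Fin C => wd ρ m C τ a j) = wd ρ m C τ a := by
  funext i
  unfold exw
  by_cases h : i < C
  · rw [dif_pos h]
  · rw [dif_neg h]
    unfold wd
    rw [decide_eq_false]
    exact fun h1 => h h1.1

/-- At most one point has a given position. -/
lemma card_pos (h : ASeq N ρ) {t : ℕ} (ht : t ≤ N) (x : ℕ) :
    (univ.filter fun a => ρ t a = x).card ≤ 1 := by
  rw [Finset.card_le_one]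
  intro a ha b hb
  rw [mem_filter] at ha hb
  exact h.inj t ht (ha.2.trans hb.2.symm)

/-- The points near the halving line at one of the times. -/
noncomputable def nr (ρ : ℕ → α → ℕ) (m C : ℕ) (τ : ℕ → ℕ) : Finset α :=
  univ.filter fun a => ∃ j < C, ρ (τ j) a = m - 1 ∨ ρ (τ j) a = m

lemma card_nr (h : ASeq N ρ) {m C : ℕ} {τ : ℕ → ℕ} (hτ : ∀ j, τ j ≤ N) :
    (nr ρ m C τ).card ≤ 2 * C := by
  have h0 : nr ρ m C τ ⊆ (range C).biUnion fun j => (univ.filter fun a => ρ (τ j) a = m - 1) ∪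
      (univ.filter fun a => ρ (τ j) a = m) := by
    intro a ha
    unfold nr at ha
    rw [mem_filter] at ha
    obtain ⟨j, hj, h1⟩ := ha.2
    rw [mem_biUnion]
    refine ⟨j, mem_range.2 hj, ?_⟩
    rw [mem_union, mem_filter, mem_filter]
    rcases h1 with h1 | h1
    · exact Or.inl ⟨mem_univ _, h1⟩
    · exact Or.inr ⟨mem_univ _, h1⟩
  refine (Finset.card_le_card h0).trans ((Finset.card_biUnion_le).trans ?_)
  calc _ ≤ ∑ _j ∈ range C, 2 := by
        refine Finset.sum_le_sum fun j _ => ?_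
        refine (Finset.card_union_le _ _).trans ?_
        have h1 := card_pos h (hτ j) (m - 1)
        have h2 := card_pos h (hτ j) m
        omega
    _ = 2 * C := by
        rw [Finset.sum_const, Finset.card_range, smul_eq_mul, mul_comm]

/-- The side does not change in one step, for the points which are not near. -/
lemma side_eq (h : ASeq N ρ) {m q q' : ℕ} {a : α} (h1 : ρ q a ≠ m - 1) (h2 : ρ q a ≠ m)
    (h3 : q' = q ∨ (q' = q + 1 ∧ q < N)) : ρ q' a < m ↔ ρ q a < m := by
  rcases h3 with rfl | ⟨rfl, h4⟩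
  · exact Iff.rfl
  · have h5 := h.up q h4 a
    have h6 := h.dn q h4 a
    omega

lemma wd_eq_of {m C : ℕ} {τ τ' : ℕ → ℕ} {a : α}
    (h : ∀ i < C, (ρ (τ i) a < m ↔ ρ (τ' i) a < m)) : wd ρ m C τ a = wd ρ m C τ' a := by
  funext i
  unfold wd
  rw [decide_eq_decide]
  constructor
  · rintro ⟨h1, h2⟩
    exact ⟨h1, (h i h1).1 h2⟩
  · rintro ⟨h1, h2⟩
    exact ⟨h1, (h i h1).2 h2⟩

lemma eg_eq_of {C N : ℕ} {τ τ' : ℕ → ℕ} (hC : 0 < C) (h : ∀ i < C, τ i = τ' i) :
    eg C N τ = eg C N τ' := by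
  unfold eg
  refine Finset.filter_congr fun g hg => ?_
  have h1 := mem_range.1 hg
  rw [h (C - 1) (by omega), h g h1, h (g - 1) (by omega)]

end

/-- The roundings of a refined position. -/
lemma ex_rnd {l : ℕ} (s : Fin (l + 1) → ℕ) (M θ : ℕ) {i : ℕ} (h : i < l + 1) :
    ex (rnd M θ s) i = (s ⟨i, h⟩ + θ) / M := by
  rw [ex_lt _ h]
  rfl

lemma ex_rnd_step {l M N : ℕ} (hM : 0 < M) {s : Fin (l + 1) → ℕ} (hs : Adm (M * N) s) {θ : ℕ}
    (hθ : θ < M) (i : ℕ) : ex (rnd M θ s) i = ex (rnd M 0 s) i ∨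
      (ex (rnd M θ s) i = ex (rnd M 0 s) i + 1 ∧ ex (rnd M 0 s) i < N) := by
  by_cases h : i < l + 1
  · have h3 := (ex_cfg (rnd_adm hM hθ hs)).le i
    rw [ex_rnd s M θ h] at h3 ⊢
    have e0 : ex (rnd M 0 s) i = s ⟨i, h⟩ / M := by
      rw [ex_rnd s M 0 h]
      rfl
    rw [e0]
    have h1 : s ⟨i, h⟩ / M ≤ (s ⟨i, h⟩ + θ) / M := Nat.div_le_div_right (by omega)
    have h2 : (s ⟨i, h⟩ + θ) / M ≤ s ⟨i, h⟩ / M + 1 := by
      rw [← Nat.add_div_right _ hM]
      exact Nat.div_le_div_right (by omega)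
    omega
  · unfold ex
    rw [dif_neg h, dif_neg h]
    exact Or.inl rfl

lemma div_change {a M θ θ' : ℕ} (h1 : θ < M) (h2 : θ' < M) (h3 : 0 < θ) (h4 : 0 < θ')
    (h5 : (a + θ) / M ≠ (a + (θ - 1)) / M) (h6 : (a + θ') / M ≠ (a + (θ' - 1)) / M) : θ = θ' := by
  have hM : 0 < M := by omega
  have key : ∀ x, 0 < x → x < M → (a + x) / M ≠ (a + (x - 1)) / M → M ∣ a + x := by
    intro x hx hxM hne
    have e : a + x = (a + (x - 1)) + 1 := by omega
    rw [e] at hne ⊢
    rw [Nat.succ_div] at hne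
    by_contra hc
    rw [if_neg hc, Nat.add_zero] at hne
    exact hne rfl
  have k1 := key θ h3 h1 h5
  have k2 := key θ' h4 h2 h6
  rcases le_total θ θ' with h | h
  · have h7 := Nat.dvd_sub k2 k1
    have e : a + θ' - (a + θ) = θ' - θ := by omega
    rw [e] at h7
    have h8 := Nat.eq_zero_of_dvd_of_lt h7 (by omega)
    omega
  · have h7 := Nat.dvd_sub k1 k2
    have e : a + θ - (a + θ') = θ - θ' := by omega
    rw [e] at h7
    have h8 := Nat.eq_zero_of_dvd_of_lt h7 (by omega)
    omega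

lemma card_change {l M N : ℕ} (s : Fin (l + 1) → ℕ) {β : Type} (f : ℕ → β)
    (hf : ∀ θ, 0 < θ → θ < M → eg (l + 1) N (ex (rnd M θ s)) = eg (l + 1) N (ex (rnd M (θ - 1) s)) →
      f θ = f (θ - 1)) :
    ((range M).filter fun θ => θ ≠ 0 ∧ f θ ≠ f (θ - 1)).card ≤ l + 1 := by
  have h0 : ((range M).filter fun θ => θ ≠ 0 ∧ f θ ≠ f (θ - 1)) ⊆
      (univ : Finset (Fin (l + 1))).biUnion fun i => (range M).filter fun θ =>
        0 < θ ∧ (s i + θ) / M ≠ (s i + (θ - 1)) / M := by
    intro θ hθ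
    rw [mem_filter, mem_range] at hθ
    rw [mem_biUnion]
    by_contra hc
    apply hθ.2.2
    apply hf θ (by omega) hθ.1
    apply eg_eq_of (Nat.succ_pos l)
    intro i hi
    rw [ex_rnd s M θ hi, ex_rnd s M (θ - 1) hi]
    by_contra hne
    apply hc
    refine ⟨⟨i, hi⟩, mem_univ _, ?_⟩
    rw [mem_filter, mem_range]
    exact ⟨hθ.1, by omega, hne⟩
  refine (Finset.card_le_card h0).trans ((Finset.card_biUnion_le).trans ?_)
  calc _ ≤ ∑ _i : Fin (l + 1), 1 := by
        refine Finset.sum_le_sum fun i _ => ?_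
        rw [Finset.card_le_one]
        intro a ha b hb
        rw [mem_filter, mem_range] at ha hb
        exact div_change ha.1 hb.1 ha.2.1 hb.2.1 ha.2.2 hb.2.2
    _ = l + 1 := by simp

/-- The numbers of marks from the field. -/
lemma counts {c r : ℕ} (hc : 0 < c) (hr : 0 < r) {n δ K : ℝ} {A W : ℕ → ℝ}
    (h0 : |A 0 - W (c - 1) + n * δ| ≤ K) (h1 : ∀ g, 0 < g → g < r → |A g - A (g - 1)| ≤ K)
    (h2 : |(W 0 - A (r - 1)) + (A 0 - W (c - 1))| ≤ K)
    (h3 : ∀ i, 0 < i → i < c → |W i - W (i - 1)| ≤ K)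
    (h4 : ∑ j ∈ range r, A j + ∑ i ∈ range c, W i = c * n) :
    (∀ j < r, |A j - c * n * (1 - δ) / (c + r)| ≤ 2 * (r + c + 2) * K) ∧
    (∀ i < c, |W i - (c * n * (1 - δ) / (c + r) + n * δ)| ≤ 2 * (r + c + 2) * K) := by
  have hK : 0 ≤ K := (abs_nonneg _).trans h0
  have hc' : (1 : ℝ) ≤ c := by exact_mod_cast hc
  have hr' : (1 : ℝ) ≤ r := by exact_mod_cast hr
  have a1 : ∀ j < r, |A j - A 0| ≤ j * K := by
    intro j
    induction j with
    | zero =>
      intro _
      rw [sub_self, abs_zero, Nat.cast_zero, zero_mul]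
    | succ j ih =>
      intro hj
      have h5 := ih (by omega)
      have h6 := h1 (j + 1) (Nat.succ_pos j) hj
      rw [Nat.add_sub_cancel] at h6
      push_cast
      have e : A (j + 1) - A 0 = (A (j + 1) - A j) + (A j - A 0) := by ring
      rw [e]
      refine (abs_add_le _ _).trans ?_
      linarith
  have a2 : ∀ j < r, |A j - A 0| ≤ r * K := by
    intro j hj
    refine (a1 j hj).trans ?_
    have : (j : ℝ) ≤ r := by exact_mod_cast hj.le
    exact mul_le_mul_of_nonneg_right this hK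
  have b1 : ∀ i < c, |W i - W 0| ≤ i * K := by
    intro i
    induction i with
    | zero =>
      intro _
      rw [sub_self, abs_zero, Nat.cast_zero, zero_mul]
    | succ i ih =>
      intro hi
      have h5 := ih (by omega)
      have h6 := h3 (i + 1) (Nat.succ_pos i) hi
      rw [Nat.add_sub_cancel] at h6
      push_cast
      have e : W (i + 1) - W 0 = (W (i + 1) - W i) + (W i - W 0) := by ring
      rw [e]
      refine (abs_add_le _ _).trans ?_
      linarith
  have b2 : |W 0 - A 0 - n * δ| ≤ (r + 2) * K := by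
    have h5 := a2 (r - 1) (by omega)
    have e : W 0 - A 0 - n * δ = ((W 0 - A (r - 1)) + (A 0 - W (c - 1))) -
        (A 0 - W (c - 1) + n * δ) + (A (r - 1) - A 0) := by ring
    rw [e]
    refine (abs_add_le _ _).trans ?_
    have h6 := abs_sub ((W 0 - A (r - 1)) + (A 0 - W (c - 1))) (A 0 - W (c - 1) + n * δ)
    linarith
  have b3 : ∀ i < c, |W i - A 0 - n * δ| ≤ (r + c + 2) * K := by
    intro i hi
    have h5 := b1 i hi
    have h6 : (i : ℝ) * K ≤ c * K := by
      have : (i : ℝ) ≤ c := by exact_mod_cast hi.le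
      exact mul_le_mul_of_nonneg_right this hK
    have e : W i - A 0 - n * δ = (W i - W 0) + (W 0 - A 0 - n * δ) := by ring
    rw [e]
    refine (abs_add_le _ _).trans ?_
    linarith
  have c1 : |(c * n * (1 - δ) - (c + r) * A 0)| ≤ (c + r) * ((r + c + 2) * K) := by
    have e : c * n * (1 - δ) - (c + r) * A 0 =
        ∑ j ∈ range r, (A j - A 0) + ∑ i ∈ range c, (W i - A 0 - n * δ) := by
      rw [sum_sub_distrib, sum_congr rfl fun i _ => sub_sub (W i) (A 0) (n * δ), sum_sub_distrib,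
        sum_const, sum_const, card_range, card_range, nsmul_eq_mul, nsmul_eq_mul]
      linarith
    rw [e]
    refine (abs_add_le _ _).trans ?_
    have h5 : |∑ j ∈ range r, (A j - A 0)| ≤ ∑ _j ∈ range r, (r + c + 2) * K := by
      refine (abs_sum_le_sum_abs _ _).trans (sum_le_sum fun j hj => ?_)
      have := a2 j (mem_range.1 hj)
      nlinarith
    have h6 : |∑ i ∈ range c, (W i - A 0 - n * δ)| ≤ ∑ _i ∈ range c, (r + c + 2) * K := by
      refine (abs_sum_le_sum_abs _ _).trans (sum_le_sum fun i hi => ?_)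
      exact b3 i (mem_range.1 hi)
    rw [sum_const, card_range, nsmul_eq_mul] at h5 h6
    linarith
  have hcr : (0 : ℝ) < c + r := by linarith
  have c2 : |A 0 - c * n * (1 - δ) / (c + r)| ≤ (r + c + 2) * K := by
    have e : A 0 - c * n * (1 - δ) / (c + r) = -((c * n * (1 - δ) - (c + r) * A 0) / (c + r)) := by
      field_simp
      ring
    rw [e, abs_neg, abs_div, abs_of_pos hcr, div_le_iff₀ hcr]
    linarith
  constructor
  · intro j hj
    have h5 := a2 j hj
    have e : A j - c * n * (1 - δ) / (c + r) = (A j - A 0) + (A 0 - c * n * (1 - δ) / (c + r)) := by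
      ring
    rw [e]
    refine (abs_add_le _ _).trans ?_
    nlinarith
  · intro i hi
    have h5 := b3 i hi
    have e : W i - (c * n * (1 - δ) / (c + r) + n * δ) =
        (W i - A 0 - n * δ) + (A 0 - c * n * (1 - δ) / (c + r)) := by
      ring
    rw [e]
    refine (abs_add_le _ _).trans ?_
    linarith

section

variable {α : Type} [Fintype α]

/-- The number of the points with a mark on the base `j`. -/
lemma sum_bm (x : α → Mk) (j : ℕ) :
    ∑ a, bm (x a) j = ((univ.filter fun a => j ∈ (x a).Z).card : ℝ) := by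
  unfold bm
  rw [← sum_boole]

lemma sum_wm (x : α → Mk) (i : ℕ) :
    ∑ a, wm (x a) i = ((univ.filter fun a => i ∈ (x a).Wp).card : ℝ) +
      (univ.filter fun a => i ∈ (x a).Wm).card := by
  unfold wm
  rw [sum_add_distrib, ← sum_boole, ← sum_boole]

lemma sum_bm_range {r : ℕ} {x : Mk} (h : x.Z ⊆ range r) : ∑ j ∈ range r, bm x j = x.Z.card := by
  unfold bm
  rw [sum_boole]
  congr 2
  ext j
  rw [mem_filter]
  exact ⟨fun h1 => h1.2, fun h1 => ⟨h h1, h1⟩⟩

lemma sum_wm_range {c : ℕ} {x : Mk} (h : x.Wp ⊆ range c) (h' : x.Wm ⊆ range c) :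
    ∑ i ∈ range c, wm x i = x.Wp.card + x.Wm.card := by
  unfold wm
  rw [sum_add_distrib, sum_boole, sum_boole]
  congr 3
  · ext j
    rw [mem_filter]
    exact ⟨fun h1 => h1.2, fun h1 => ⟨h h1, h1⟩⟩
  · ext j
    rw [mem_filter]
    exact ⟨fun h1 => h1.2, fun h1 => ⟨h' h1, h1⟩⟩

/-- The numbers of marks from the sums of the field. -/
lemma counts_of_vf {c r : ℕ} (hc : 0 < c) (hr : 0 < r) {δ K : ℝ} (x : α → Mk)
    (hZ : ∀ a, (x a).Z ⊆ range r) (hWp : ∀ a, (x a).Wp ⊆ range c) (hWm : ∀ a, (x a).Wm ⊆ range c)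
    (hcount : ∀ a, (x a).Z.card + (x a).Wp.card + (x a).Wm.card = c)
    (hK : ∀ g < c + r, |∑ a, vf c r δ (x a) g| ≤ K) :
    (∀ j < r, |((univ.filter fun a => j ∈ (x a).Z).card : ℝ) -
      c * (Fintype.card α : ℝ) * (1 - δ) / (c + r)| ≤ 2 * (r + c + 2) * K) ∧
    (∀ i < c, |(((univ.filter fun a => i ∈ (x a).Wp).card : ℝ) +
      (univ.filter fun a => i ∈ (x a).Wm).card) -
      (c * (Fintype.card α : ℝ) * (1 - δ) / (c + r) + (Fintype.card α : ℝ) * δ)| ≤
        2 * (r + c + 2) * K) := by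
  have e0 : ∑ a, vf c r δ (x a) 0 = ∑ a, bm (x a) 0 - ∑ a, wm (x a) (c - 1) +
      (Fintype.card α : ℝ) * δ := by
    unfold vf
    simp only [if_true]
    rw [sum_add_distrib, sum_sub_distrib, sum_const, card_univ, nsmul_eq_mul]
  have e1 : ∀ g, 0 < g → g < r → ∑ a, vf c r δ (x a) g = ∑ a, bm (x a) g - ∑ a, bm (x a) (g - 1) := by
    intro g h1 h2
    unfold vf
    rw [sum_congr rfl fun a _ => by rw [if_neg (by omega), if_pos h2], sum_sub_distrib]
  have e2 : ∑ a, vf c r δ (x a) r = (∑ a, wm (x a) 0 - ∑ a, bm (x a) (r - 1)) +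
      (∑ a, bm (x a) 0 - ∑ a, wm (x a) (c - 1)) := by
    unfold vf
    rw [sum_congr rfl fun a _ => by rw [if_neg (by omega), if_neg (by omega), if_pos rfl],
      sum_add_distrib, sum_sub_distrib, sum_sub_distrib]
  have e3 : ∀ i, 0 < i → i < c → ∑ a, vf c r δ (x a) (r + i) =
      ∑ a, wm (x a) i - ∑ a, wm (x a) (i - 1) := by
    intro i h1 h2
    unfold vf
    rw [sum_congr rfl fun a _ => by rw [if_neg (by omega), if_neg (by omega), if_neg (by omega)],
      sum_sub_distrib, Nat.add_sub_cancel_left]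
  have h4 : ∑ j ∈ range r, (∑ a, bm (x a) j) + ∑ i ∈ range c, (∑ a, wm (x a) i) =
      c * (Fintype.card α : ℝ) := by
    rw [sum_comm, sum_comm (s := range c), ← sum_add_distrib]
    have h5 : ∀ a ∈ (univ : Finset α), ∑ j ∈ range r, bm (x a) j + ∑ i ∈ range c, wm (x a) i =
        (c : ℝ) := by
      intro a _
      rw [sum_bm_range (hZ a), sum_wm_range (hWp a) (hWm a)]
      exact_mod_cast (by rw [← Nat.add_assoc]; exact hcount a)
    rw [sum_congr rfl h5, sum_const, card_univ, nsmul_eq_mul, mul_comm]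
  have h6 := counts (n := (Fintype.card α : ℝ)) (δ := δ) (K := K) (A := fun j => ∑ a, bm (x a) j)
    (W := fun i => ∑ a, wm (x a) i) hc hr (by rw [← e0]; exact hK 0 (by omega))
    (fun g h1 h2 => by rw [← e1 g h1 h2]; exact hK g (by omega))
    (by rw [← e2]; exact hK r (by omega))
    (fun i h1 h2 => by rw [← e3 i h1 h2]; exact hK (r + i) (by omega)) h4
  constructor
  · intro j hj
    rw [← sum_bm]
    exact h6.1 j hj
  · intro i hi
    rw [← sum_wm]
    exact h6.2 i hi

end

/-- The pair inequality of the marks gives the pair property. -/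
lemma pprop_of {α : Type} [Fintype α] {N : ℕ} {ρ : ℕ → α → ℕ} (h : ASeq N ρ) {c r m : ℕ}
    (R : Rule c r) {τ : ℕ → ℕ} (hτ : Cfg (c + r) N τ) (I : α → Finset ℕ)
    (hI : ∀ a, Cst (c + r) (I a) (wd ρ m (c + r) τ a)) :
    PProp c r (fun i => pre ρ (τ i) m) (fun a => (R.z (wd ρ m (c + r) τ a) (I a)).Z)
      (fun a => (R.z (wd ρ m (c + r) τ a) (I a)).Wp)
      (fun a => (R.z (wd ρ m (c + r) τ a) (I a)).Wm) := by
  intro u v
  have h1 := R.pair _ _ (I u) (I v) (wd_cx h (m := m) hτ u v) (hI u) (hI v)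
  unfold PI at h1
  have key : ∀ i < c + r, ∀ a, (wd ρ m (c + r) τ a i = true ↔ a ∈ pre ρ (τ i) m) := by
    intro i hi a
    unfold wd
    rw [decide_eq_true_iff, mem_pre]
    exact ⟨fun h => h.2, fun h => ⟨hi, h⟩⟩
  have key2 : ∀ i < c + r, ((wd ρ m (c + r) τ u i = wd ρ m (c + r) τ v i) ↔
      (u ∈ pre ρ (τ i) m ↔ v ∈ pre ρ (τ i) m)) := by
    intro i hi
    rw [← key i hi u, ← key i hi v]
    exact Bool.eq_iff_iff
  have e1 : ((range c).filter fun i => ¬ (wd ρ m (c + r) τ u i = wd ρ m (c + r) τ v i)).card =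
      ((range c).filter fun i => ¬ (u ∈ pre ρ (τ i) m ↔ v ∈ pre ρ (τ i) m)).card := by
    congr 1
    refine filter_congr fun i hi => ?_
    have := mem_range.1 hi
    rw [key2 i (by omega)]
  have e2 : ∀ x y : Mk, ((range r).filter fun j =>
      wd ρ m (c + r) τ u (c + j) = wd ρ m (c + r) τ v (c + j) ∧ (j ∈ x.Z ∨ j ∈ y.Z)).card =
      ((range r).filter fun j => (u ∈ pre ρ (τ (c + j)) m ↔ v ∈ pre ρ (τ (c + j)) m) ∧
        (j ∈ x.Z ∨ j ∈ y.Z)).card := by
    intro x y
    congr 1
    refine filter_congr fun j hj => ?_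
    have := mem_range.1 hj
    rw [key2 (c + j) (by omega)]
  have e3 : ∀ x y : Mk, ((range r).filter fun j =>
      ¬ (wd ρ m (c + r) τ u (c + j) = wd ρ m (c + r) τ v (c + j)) ∧ j ∈ x.Z ∧ j ∈ y.Z).card =
      ((range r).filter fun j => ¬ (u ∈ pre ρ (τ (c + j)) m ↔ v ∈ pre ρ (τ (c + j)) m) ∧
        j ∈ x.Z ∧ j ∈ y.Z).card := by
    intro x y
    congr 1
    refine filter_congr fun j hj => ?_
    have := mem_range.1 hj
    rw [key2 (c + j) (by omega)]
  rw [e1, e2, e3] at h1
  refine h1.trans (le_of_eq ?_)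
  congr 1

/-- **Marks from a rule.** -/
theorem marks_of_rule {k r c : ℕ} (hc : 0 < c) (hr : 0 < r) (R : Rule c r) {σ : ℝ} (hσ : 0 ≤ σ)
    (hI : InwardS R ((k : ℝ) * r / (((k + 1) * r + c : ℕ) : ℝ)) σ) : Marks k r c := by
  set Ln : ℕ := (k + 1) * r + c with hLn
  set Lr : ℝ := (Ln : ℝ) with hLr
  set δ : ℝ := (k : ℝ) * r / Lr with hδ
  have hc' : (1 : ℝ) ≤ c := by exact_mod_cast hc
  have hr' : (1 : ℝ) ≤ r := by exact_mod_cast hr
  have hk' : (0 : ℝ) ≤ k := Nat.cast_nonneg k
  have hLe : Lr = (k + 1) * r + c := by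
    rw [hLr, hLn]
    push_cast
    ring
  have hL0 : 0 < Lr := by
    rw [hLe]
    positivity
  have hL1 : 1 ≤ Lr := by
    rw [hLe]
    nlinarith
  have hδ0 : 0 ≤ δ := by
    rw [hδ]
    positivity
  have hδ1 : 1 - δ = (c + r) / Lr := by
    rw [hδ, hLe]
    have : (0 : ℝ) < (k + 1) * r + c := by positivity
    field_simp
    ring
  have hδ2 : δ ≤ 1 := by
    have : 0 ≤ (c + r) / Lr := by positivity
    linarith
  set l : ℕ := c + r - 1 with hl
  have hC : c + r = l + 1 := by omega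
  have hl1 : 1 ≤ l := by omega
  set b : ℝ := 3 with hb
  set K : ℝ := 1 + l * σ + (2 * 3 * (l + 1 : ℕ) * (Fintype.card (Fin (l + 1) → Bool) : ℕ) +
    4 * 3 * (2 * (l + 1) : ℕ)) with hK
  have hK0 : 0 ≤ K := by
    rw [hK]
    positivity
  refine ⟨2 * (r + c + 2) * K + 4 * (5 + σ) * Lr, by positivity, ?_⟩
  intro α _ N ρ h hn
  set n : ℕ := Fintype.card α with hnd
  have hm : Fintype.card α = 2 * (n / 2) := by
    have : 2 ∣ n := (dvd_mul_right 2 _).trans hn
    omega
  set m : ℕ := n / 2 with hmd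
  -- the conclusion for any family of marks
  have fin : ∀ τ : ℕ → ℕ, Cfg (c + r) N τ → ∀ I : α → Finset ℕ,
      (∀ a, Cst (c + r) (I a) (wd ρ m (c + r) τ a)) → ∀ D : ℝ, D ≤ 2 * (r + c + 2) * K + 4 * (5 + σ) * Lr →
      (∀ j < r, |((univ.filter fun a => j ∈ (R.z (wd ρ m (c + r) τ a) (I a)).Z).card : ℝ) -
        c * (n : ℝ) / Lr| ≤ D) →
      (∀ i < c, |(((univ.filter fun a => i ∈ (R.z (wd ρ m (c + r) τ a) (I a)).Wp).card : ℝ) +
        (univ.filter fun a => i ∈ (R.z (wd ρ m (c + r) τ a) (I a)).Wm).card) -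
          (1 - r / Lr) * (n : ℝ)| ≤ D) →
      ∃ τ : ℕ → ℕ, (∀ j, τ j ≤ N) ∧ ∃ Z Wp Wm : α → Finset ℕ,
      PProp c r (fun i => pre ρ (τ i) m) Z Wp Wm ∧
      (∀ j < r, |((univ.filter fun a => j ∈ Z a).card : ℝ) - c * (n : ℝ) / Lr| ≤
        2 * (r + c + 2) * K + 4 * (5 + σ) * Lr) ∧
      (∀ i < c, |(((univ.filter fun a => i ∈ Wp a).card : ℝ) +
        (univ.filter fun a => i ∈ Wm a).card) - (1 - r / Lr) * (n : ℝ)| ≤
        2 * (r + c + 2) * K + 4 * (5 + σ) * Lr) := by
    intro τ hτ I hI D hD h1 h2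
    exact ⟨τ, hτ.le, _, _, _, pprop_of h R hτ I hI, fun j hj => (h1 j hj).trans hD,
      fun i hi => (h2 i hi).trans hD⟩
  have hn0 : (0 : ℝ) ≤ n := Nat.cast_nonneg n
  rcases lt_or_ge ((n : ℝ) * (1 - δ)) (5 + σ) with hsm | hlg
  · -- few points
    have hn1 : (n : ℝ) ≤ (5 + σ) * Lr := by
      rw [hδ1] at hsm
      have h1 : (n : ℝ) * ((c + r) / Lr) = n * (c + r) / Lr := by ring
      rw [h1, div_lt_iff₀ hL0] at hsm
      nlinarith
    have hτ0 : Cfg (c + r) N (fun _ => 0) := ⟨rfl, fun _ _ _ _ => le_rfl, fun _ => Nat.zero_le _⟩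
    have hcard : ∀ s : Finset α, (s.card : ℝ) ≤ n := by
      intro s
      have := Finset.card_le_univ s
      exact_mod_cast this
    have hq1 : 0 ≤ c * (n : ℝ) / Lr ∧ c * (n : ℝ) / Lr ≤ n := by
      constructor
      · positivity
      · rw [div_le_iff₀ hL0, hLe]
        nlinarith [mul_nonneg hn0 (by positivity : (0 : ℝ) ≤ (k + 1) * r)]
    have hq2 : 0 ≤ (1 - r / Lr) * (n : ℝ) ∧ (1 - r / Lr) * (n : ℝ) ≤ n := by
      have h1 : 0 ≤ r / Lr := by positivity
      have h2 : r / Lr ≤ 1 := by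
        rw [div_le_one hL0, hLe]
        nlinarith
      constructor
      · exact mul_nonneg (by linarith) hn0
      · nlinarith
    refine fin _ hτ0 (fun _ => ∅) (fun a => ⟨fun g hg => by simp at hg, fun hg => by simp at hg⟩)
      (4 * (5 + σ) * Lr) ?_ ?_ ?_
    · have : 0 ≤ 2 * (r + c + 2) * K := by positivity
      linarith
    · intro j hj
      have h1 := hcard (univ.filter fun a => j ∈ (R.z (wd ρ m (c + r) (fun _ => 0) a) ∅).Z)
      have h2 : (0 : ℝ) ≤ ((univ.filter fun a => j ∈ (R.z (wd ρ m (c + r) (fun _ => 0) a) ∅).Z).card : ℝ) :=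
        Nat.cast_nonneg _
      rw [abs_le]
      constructor <;> linarith [hq1.1, hq1.2]
    · intro i hi
      have h1 := hcard (univ.filter fun a => i ∈ (R.z (wd ρ m (c + r) (fun _ => 0) a) ∅).Wp)
      have h2 := hcard (univ.filter fun a => i ∈ (R.z (wd ρ m (c + r) (fun _ => 0) a) ∅).Wm)
      have h3 : (0 : ℝ) ≤ ((univ.filter fun a => i ∈ (R.z (wd ρ m (c + r) (fun _ => 0) a) ∅).Wp).card : ℝ) :=
        Nat.cast_nonneg _
      have h4 : (0 : ℝ) ≤ ((univ.filter fun a => i ∈ (R.z (wd ρ m (c + r) (fun _ => 0) a) ∅).Wm).card : ℝ) :=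
        Nat.cast_nonneg _
      rw [abs_le]
      constructor <;> linarith [hq2.1, hq2.2]
  · -- many points
    have hmu : 0 < m := by
      by_contra hc0
      have h1 : n = 0 := by omega
      rw [h1, Nat.cast_zero, zero_mul] at hlg
      linarith
    let F : (Fin (l + 1) → ℕ) → Fin (l + 1) → ℝ := fun t j =>
      ∑ a, vf c r δ (R.z (wd ρ m (c + r) (ex t) a) (eg (c + r) N (ex t))) j.val
    have hcfg : ∀ {t : Fin (l + 1) → ℕ}, Adm N t → Cfg (c + r) N (ex t) := by
      intro t ht
      rw [hC]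
      exact ex_cfg ht
    have hbd : ∀ t, Adm N t → ∀ j, |F t j| ≤ 3 * n := by
      intro t _ j
      refine (abs_sum_le_sum_abs _ _).trans ?_
      calc _ ≤ ∑ _a : α, (3 : ℝ) := sum_le_sum fun a _ => abs_vf hδ0 hδ2 _ _
        _ = 3 * n := by
          rw [sum_const, card_univ, nsmul_eq_mul, mul_comm]
    have hsum : ∀ t, Adm N t → ∑ j : Fin l, F t j.succ = 0 := by
      intro t _
      show ∑ j : Fin l, ∑ a, vf c r δ (R.z (wd ρ m (c + r) (ex t) a) (eg (c + r) N (ex t)))
        (j.succ : Fin (l + 1)).val = 0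
      rw [sum_comm]
      refine sum_eq_zero fun a _ => ?_
      have h1 := vf_sum hc hr δ (R.z (wd ρ m (c + r) (ex t) a) (eg (c + r) N (ex t)))
      rw [← hl, ← Fin.sum_univ_eq_sum_range
        (fun j => vf c r δ (R.z (wd ρ m (c + r) (ex t) a) (eg (c + r) N (ex t))) (j + 1)) l] at h1
      simpa using h1
    have hgap : ∀ t, Adm N t → ∀ i : Fin l, t i.succ = t i.castSucc → -σ ≤ F t i.succ := by
      intro t ht i hi
      refine hI α N m ρ h hm (ex t) (hcfg ht) _ ?_
      unfold eg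
      rw [mem_filter, mem_range]
      refine ⟨?_, Or.inr ⟨?_, ?_⟩⟩
      · rw [hC]
        exact i.succ.2
      · simp
      · have h1 : (i.succ : Fin (l + 1)).val < l + 1 := i.succ.2
        have h2 : (i.succ : Fin (l + 1)).val - 1 < l + 1 := by omega
        rw [ex_lt t h1, ex_lt t h2]
        have e : (⟨(i.succ : Fin (l + 1)).val - 1, h2⟩ : Fin (l + 1)) = i.castSucc := by
          ext
          simp
        rw [e]
        exact hi
    have hgap0 : ∀ t, Adm N t → t (Fin.last l) = N → -σ ≤ F t 0 := by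
      intro t ht hi
      refine hI α N m ρ h hm (ex t) (hcfg ht) _ ?_
      unfold eg
      rw [mem_filter, mem_range]
      refine ⟨by simp; omega, Or.inl ⟨by simp, ?_⟩⟩
      have h1 : c + r - 1 < l + 1 := by omega
      rw [ex_lt t h1]
      have e : (⟨c + r - 1, h1⟩ : Fin (l + 1)) = Fin.last l := by
        ext
        simp [hl]
      rw [e]
      exact hi
    have hvert : ∀ t, Adm N t → (∀ i, t i ≤ 1) → F t 0 ≤ -(1 + σ) := by
      intro t ht ht1
      have hcf := hcfg ht
      -- the points which are not near have constant words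
      let E0 : Finset α := (univ.filter fun a => ρ 0 a = m - 1) ∪ (univ.filter fun a => ρ 0 a = m)
      have hE0 : E0.card ≤ 2 := by
        refine (Finset.card_union_le _ _).trans ?_
        have h1 := card_pos h (Nat.zero_le N) (m - 1)
        have h2 := card_pos h (Nat.zero_le N) m
        omega
      have h1 : ∀ a ∈ (univ : Finset α),
          vf c r δ (R.z (wd ρ m (c + r) (ex t) a) (eg (c + r) N (ex t))) 0 ≤
            (if a ∈ E0 then (2 : ℝ) else 0) + (-1 + δ) := by
        intro a _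
        set x := R.z (wd ρ m (c + r) (ex t) a) (eg (c + r) N (ex t)) with hx
        have e : vf c r δ x 0 = bm x 0 - wm x (c - 1) + δ := by
          unfold vf
          rw [if_pos rfl]
        rw [e]
        have g1 := bm_le x 0
        have g2 := wm_nonneg x (c - 1)
        by_cases ha : a ∈ E0
        · rw [if_pos ha]
          linarith
        · rw [if_neg ha]
          rw [mem_union, mem_filter, mem_filter] at ha
          push Not at ha
          have hw : ∀ i < c + r, wd ρ m (c + r) (ex t) a i = wd ρ m (c + r) (ex t) a 0 := by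
            intro i hi
            unfold wd
            rw [decide_eq_decide]
            have hz := hcf.zero
            have hi1 : ex t i ≤ 1 := by
              rw [ex_lt t (by omega)]
              exact ht1 _
            have s1 := side_eq h (m := m) (q := 0) (q' := ex t i) (a := a) (ha.1 (mem_univ _))
              (ha.2 (mem_univ _)) (by
                rcases Nat.eq_zero_or_pos (ex t i) with h0 | h0
                · exact Or.inl h0
                · have := hcf.le i
                  exact Or.inr ⟨by omega, by omega⟩)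
            rw [hz, s1]
            constructor
            · rintro ⟨_, h5⟩
              exact ⟨by omega, h5⟩
            · rintro ⟨_, h5⟩
              exact ⟨hi, h5⟩
          obtain ⟨k1, k2⟩ := R.const _ (eg (c + r) N (ex t))
            (wd_cst h hm (by omega) hcf a) hw
          have k3 : bm x 0 = 0 := by
            unfold bm
            rw [if_neg k1]
          have k4 : 1 ≤ wm x (c - 1) := by
            unfold wm
            rcases k2 with k2 | k2
            · rw [if_pos k2]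
              have : (0 : ℝ) ≤ if c - 1 ∈ x.Wm then 1 else 0 := by
                split_ifs <;> norm_num
              linarith
            · rw [if_pos k2]
              have : (0 : ℝ) ≤ if c - 1 ∈ x.Wp then 1 else 0 := by
                split_ifs <;> norm_num
              linarith
          linarith
      have h2 : F t 0 ≤ ∑ a : α, ((if a ∈ E0 then (2 : ℝ) else 0) + (-1 + δ)) := by
        show ∑ a, vf c r δ (R.z (wd ρ m (c + r) (ex t) a) (eg (c + r) N (ex t)))
          ((0 : Fin (l + 1)).val) ≤ _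
        exact sum_le_sum h1
      rw [sum_add_distrib, sum_const, card_univ, nsmul_eq_mul, ← sum_filter, sum_const,
        nsmul_eq_mul, filter_mem_eq_inter, univ_inter] at h2
      have h3 : (E0.card : ℝ) ≤ 2 := by exact_mod_cast hE0
      have h4 : (n : ℝ) * (-1 + δ) = -(n * (1 - δ)) := by ring
      rw [← hnd, h4] at h2
      linarith
    obtain ⟨M, hM, s, hs, hz⟩ := field_zero_slack hl1 F (B := 3 * n + 1) (by positivity)
      (fun t ht j => (hbd t ht j).trans (by linarith)) hsum hσ hgap hgap0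
      (by linarith : σ < 1 + σ) hvert (zero_lt_one)
    -- the final configuration
    set T : ℕ → ℕ → ℕ := fun i => ex (rnd M i s) with hT
    have hTc : ∀ i < M, Cfg (c + r) N (T i) := fun i hi => hcfg (rnd_adm hM hi hs)
    set E : Finset α := nr ρ m (c + r) (T 0) with hE
    have hEc : E.card ≤ 2 * (c + r) := card_nr h (hTc 0 hM).le
    have hst : ∀ a, a ∉ E → ∀ i < M, wd ρ m (c + r) (T i) a = wd ρ m (c + r) (T 0) a := by
      intro a ha i hi
      refine wd_eq_of fun j hj => ?_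
      have h1 : ρ (T 0 j) a ≠ m - 1 ∧ ρ (T 0 j) a ≠ m := by
        constructor
        · intro h2
          exact ha (mem_filter.2 ⟨mem_univ _, j, hj, Or.inl h2⟩)
        · intro h2
          exact ha (mem_filter.2 ⟨mem_univ _, j, hj, Or.inr h2⟩)
      exact side_eq h h1.1 h1.2 (ex_rnd_step hM hs hi j)
    obtain ⟨io, hio, hround⟩ := Pool.Agent.H12.TP.rounding' M hM
      (fun i a => (fun j : Fin (l + 1) => wd ρ m (c + r) (T i) a j)) E
      (fun a ha i hi => by
        show (fun j : Fin (l + 1) => wd ρ m (c + r) (T i) a j) = _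
        rw [hst a ha i hi])
    set I : α → Finset ℕ := fun a => if a ∈ E then ∅ else eg (c + r) N (T (io a)) with hId
    have hIc : ∀ a, Cst (c + r) (I a) (wd ρ m (c + r) (T 0) a) := by
      intro a
      rw [hId]
      by_cases ha : a ∈ E
      · simp only [if_pos ha]
        exact ⟨fun g hg => by simp at hg, fun hg => by simp at hg⟩
      · simp only [if_neg ha]
        rw [← hst a ha (io a) (hio a)]
        exact wd_cst h hm (by omega) (hTc _ (hio a)) a
    set x : α → Mk := fun a => R.z (wd ρ m (c + r) (T 0) a) (I a) with hx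
    have hV : ∀ g < c + r, |∑ a, vf c r δ (x a) g| ≤ K := by
      intro g hg
      have h1 := hround (fun w i => vf c r δ (R.z (exw w) (eg (c + r) N (T i))) g)
        (fun a => vf c r δ (R.z (wd ρ m (c + r) (T 0) a) ∅) g) 3 (l + 1) (by norm_num)
        (fun w i _ => abs_vf hδ0 hδ2 _ _) (fun a => abs_vf hδ0 hδ2 _ _)
        (fun w => card_change s _ (fun θ h1 h2 h3 => by
          show vf c r δ (R.z (exw w) (eg (c + r) N (T θ))) g =
            vf c r δ (R.z (exw w) (eg (c + r) N (T (θ - 1)))) g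
          have h4 : eg (c + r) N (T θ) = eg (c + r) N (T (θ - 1)) := by
            rw [hC]
            exact h3
          rw [h4]))
      have ew : ∀ i a, exw (fun j : Fin (l + 1) => wd ρ m (c + r) (T i) a j) =
          wd ρ m (c + r) (T i) a := by
        intro i a
        have := exw_wd (ρ := ρ) m (c + r) (T i) a
        rw [← hC]
        exact this
      simp only [ew] at h1
      have e1 : ∑ a, (if a ∈ E then vf c r δ (R.z (wd ρ m (c + r) (T 0) a) ∅) g else
          vf c r δ (R.z (wd ρ m (c + r) (T 0) a) (eg (c + r) N (T (io a)))) g) =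
          ∑ a, vf c r δ (x a) g := by
        refine sum_congr rfl fun a _ => ?_
        rw [hx, hId]
        by_cases ha : a ∈ E
        · simp only [if_pos ha]
        · simp only [if_neg ha]
      rw [e1] at h1
      have hg' : g < l + 1 := by omega
      have e2 : (1 / (M : ℝ)) * ∑ i ∈ range M, ∑ a, vf c r δ (R.z (wd ρ m (c + r) (T i) a)
          (eg (c + r) N (T i))) g = fhat F M s ⟨g, hg'⟩ := by
        unfold fhat
        rw [div_mul_eq_mul_div, one_mul]
      rw [e2] at h1
      have h2 := hz ⟨g, hg'⟩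
      have h3 : (2 * 3 * (l + 1 : ℕ) * (Fintype.card (Fin (l + 1) → Bool) : ℝ) + 4 * 3 * (E.card : ℝ)) ≤
          (2 * 3 * (l + 1 : ℕ) * (Fintype.card (Fin (l + 1) → Bool) : ℕ) +
            4 * 3 * (2 * (l + 1) : ℕ)) := by
        have : (E.card : ℝ) ≤ (2 * (l + 1) : ℕ) := by
          rw [← hC]
          exact_mod_cast hEc
        linarith
      have e3 : ∑ a, vf c r δ (x a) g = (∑ a, vf c r δ (x a) g - fhat F M s ⟨g, hg'⟩) +
          fhat F M s ⟨g, hg'⟩ := by ring
      rw [e3, hK]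
      refine (abs_add_le _ _).trans ?_
      linarith
    obtain ⟨hA, hW⟩ := counts_of_vf hc hr x (fun a => R.hZ _ _) (fun a => R.hWp _ _)
      (fun a => R.hWm _ _) (fun a => R.count _ _ (hIc a)) hV
    have hcr : (0 : ℝ) < c + r := by linarith
    have e4 : c * (Fintype.card α : ℝ) * (1 - δ) / (c + r) = c * (n : ℝ) / Lr := by
      rw [hδ1, ← hnd]
      field_simp
    have e5 : c * (Fintype.card α : ℝ) * (1 - δ) / (c + r) + (Fintype.card α : ℝ) * δ =
        (1 - r / Lr) * (n : ℝ) := by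
      rw [e4, ← hnd, hδ]
      have : (c : ℝ) = Lr - (k + 1) * r := by rw [hLe]; ring
      rw [this]
      field_simp
      ring
    rw [e5] at hW
    rw [e4] at hA
    refine fin (T 0) (hTc 0 hM) I hIc (2 * (r + c + 2) * K) ?_ hA hW
    have : 0 ≤ 4 * (5 + σ) * Lr := by positivity
    linarith

/-- The case without free lines. -/
theorem marks_zero (k r : ℕ) : Marks k r 0 := by
  refine ⟨0, le_rfl, fun α _ N ρ _ _ => ⟨fun _ => 0, fun _ => Nat.zero_le _, fun _ => ∅, fun _ => ∅,
    fun _ => ∅, ?_, ?_, ?_⟩⟩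
  · intro u v
    simp
  · intro j _
    simp
  · intro i hi
    exact absurd hi (Nat.not_lt_zero i)

end Pool.Agent.H69L.TP
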