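import Pool.Agent.H84L.KKM

/-!
Zeros of an arbitrary (not Lipschitz) field on the grid of the simplex of gaps, which points inwards
on the faces: the mean over a refined configuration is small.
-/

set_option autoImplicit false
set_option linter.unusedSectionVars false

namespace Pool.Agent.H69L.TP

open Finset Pool.Agent.H84L

/-- Hermite. -/
lemma herm {m : ℕ} (hm : 0 < m) (a : ℕ) : ∑ θ ∈ range m, (a + θ) / m = a := by
  induction a with
  | zero =>
    apply Finset.sum_eq_zero
    intro θ hθ
    rw [Nat.zero_add]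
    exact Nat.div_eq_of_lt (Finset.mem_range.1 hθ)
  | succ a ih =>
    have h1 : ∑ θ ∈ range m, (a + 1 + θ) / m = ∑ θ ∈ range m, (a + (θ + 1)) / m := by
      refine Finset.sum_congr rfl fun θ _ => ?_
      congr 1
      omega
    have h2 := Finset.sum_range_succ' (fun θ => (a + θ) / m) m
    have h3 := Finset.sum_range_succ (fun θ => (a + θ) / m) m
    have h4 : (a + m) / m = a / m + 1 := Nat.add_div_right a hm
    simp only [Nat.add_zero] at h2
    rw [h1]
    omega

variable {l : ℕ}

/-- The rounding of a refined configuration. -/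
def rnd (m θ : ℕ) (s : Fin (l + 1) → ℕ) : Fin (l + 1) → ℕ := fun i => (s i + θ) / m

lemma rnd_adm {m θ N : ℕ} (hm : 0 < m) (hθ : θ < m) {s : Fin (l + 1) → ℕ} (hs : Adm (m * N) s) :
    Adm N (rnd m θ s) := by
  refine ⟨?_, ?_, ?_⟩
  · intro i j hij
    have := hs.1 hij
    exact Nat.div_le_div_right (by omega)
  · intro i
    have := hs.2.1 i
    unfold rnd
    rw [Nat.div_le_iff_le_mul_add_pred hm]
    omega
  · intro i hi
    unfold rnd
    rw [hs.2.2 i hi, Nat.zero_add]
    exact Nat.div_eq_of_lt hθ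

/-- The mean. -/
noncomputable def fhat (F : (Fin (l + 1) → ℕ) → Fin (l + 1) → ℝ) (m : ℕ) (s : Fin (l + 1) → ℕ)
    (j : Fin (l + 1)) : ℝ := (∑ θ ∈ range m, F (rnd m θ s) j) / m

lemma fhat_le {F : (Fin (l + 1) → ℕ) → Fin (l + 1) → ℝ} {m : ℕ} (hm : 0 < m)
    {s : Fin (l + 1) → ℕ} {j : Fin (l + 1)} {x : ℝ}
    (h : ∀ θ < m, F (rnd m θ s) j ≤ x) : fhat F m s j ≤ x := by
  unfold fhat
  have hm' : (0 : ℝ) < m := by exact_mod_cast hm
  rw [div_le_iff₀ hm']
  calc ∑ θ ∈ range m, F (rnd m θ s) j ≤ ∑ _θ ∈ range m, x :=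
        Finset.sum_le_sum fun θ hθ => h θ (Finset.mem_range.1 hθ)
    _ = x * m := by rw [Finset.sum_const, Finset.card_range, nsmul_eq_mul, mul_comm]

lemma le_fhat {F : (Fin (l + 1) → ℕ) → Fin (l + 1) → ℝ} {m : ℕ} (hm : 0 < m)
    {s : Fin (l + 1) → ℕ} {j : Fin (l + 1)} {x : ℝ}
    (h : ∀ θ < m, x ≤ F (rnd m θ s) j) : x ≤ fhat F m s j := by
  unfold fhat
  have hm' : (0 : ℝ) < m := by exact_mod_cast hm
  rw [le_div_iff₀ hm']
  calc x * m = ∑ _θ ∈ range m, x := by
        rw [Finset.sum_const, Finset.card_range, nsmul_eq_mul, mul_comm]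
    _ ≤ ∑ θ ∈ range m, F (rnd m θ s) j :=
        Finset.sum_le_sum fun θ hθ => h θ (Finset.mem_range.1 hθ)

lemma fhat_lip {F : (Fin (l + 1) → ℕ) → Fin (l + 1) → ℝ} {B : ℝ} {m N : ℕ} (hm : 0 < m)
    (hB : 0 ≤ B) (hbd : ∀ t, Adm N t → ∀ j, |F t j| ≤ B)
    {s s' : Fin (l + 1) → ℕ} (hs : Adm (m * N) s) (hs' : Adm (m * N) s') {j : Fin (l + 1)} {d : ℕ}
    (h1 : ∀ k, k ≠ j → s k = s' k) (h2 : s' j = s j + d) (i : Fin (l + 1)) :
    |fhat F m s i - fhat F m s' i| ≤ 2 * B * d / m := by
  have hm' : (0 : ℝ) < m := by exact_mod_cast hm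
  unfold fhat
  rw [← sub_div, abs_div, abs_of_pos hm', ← Finset.sum_sub_distrib]
  refine div_le_div_of_nonneg_right ?_ hm'.le
  refine (Finset.abs_sum_le_sum_abs _ _).trans ?_
  have h3 : ∀ θ ∈ range m, |F (rnd m θ s) i - F (rnd m θ s') i| ≤
      2 * B * ((((s j + d + θ) / m : ℕ) : ℝ) - (((s j + θ) / m : ℕ) : ℝ)) := by
    intro θ hθ
    have hθ' := Finset.mem_range.1 hθ
    have hle : (s j + θ) / m ≤ (s j + d + θ) / m := Nat.div_le_div_right (by omega)
    rcases Nat.eq_or_lt_of_le hle with h4 | h4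
    · have e : rnd m θ s = rnd m θ s' := by
        funext k
        unfold rnd
        by_cases hk : k = j
        · rw [hk, h2, h4]
        · rw [h1 k hk]
      rw [e, sub_self, abs_zero, ← h4, sub_self, mul_zero]
    · have h5 : (1 : ℝ) ≤ (((s j + d + θ) / m : ℕ) : ℝ) - (((s j + θ) / m : ℕ) : ℝ) := by
        have : (((s j + θ) / m + 1 : ℕ) : ℝ) ≤ (((s j + d + θ) / m : ℕ) : ℝ) := by
          exact_mod_cast h4
        push_cast at this ⊢
        linarith
      have h6 := hbd _ (rnd_adm hm hθ' hs) i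
      have h7 := hbd _ (rnd_adm hm hθ' hs') i
      have h8 := abs_sub (F (rnd m θ s) i) (F (rnd m θ s') i)
      have h9 : 2 * B * 1 ≤ 2 * B * ((((s j + d + θ) / m : ℕ) : ℝ) - (((s j + θ) / m : ℕ) : ℝ)) :=
        mul_le_mul_of_nonneg_left h5 (by linarith)
      linarith
  refine (Finset.sum_le_sum h3).trans (le_of_eq ?_)
  rw [← Finset.mul_sum, Finset.sum_sub_distrib]
  congr 1
  have e1 := herm hm (s j + d)
  have e2 := herm hm (s j)
  rw [← Nat.cast_sum, ← Nat.cast_sum, e1, e2]
  push_cast
  ring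

/-- The gaps. -/
def gp (M : ℕ) (s : Fin (l + 1) → ℕ) (i : Fin (l + 1)) : ℕ :=
  if i.val = 0 then M - s (Fin.last l) else s i - s ⟨i.val - 1, by omega⟩

lemma gp_zero (M : ℕ) (s : Fin (l + 1) → ℕ) : gp M s 0 = M - s (Fin.last l) := by
  unfold gp
  rw [if_pos (by simp)]

lemma gp_succ (M : ℕ) (s : Fin (l + 1) → ℕ) (i : Fin l) :
    gp M s i.succ = s i.succ - s i.castSucc := by
  unfold gp
  rw [if_neg (by simp)]
  congr 1

lemma le_of_gp {M K : ℕ} {s : Fin (l + 1) → ℕ} (hs : Adm M s)
    (h : ∀ i : Fin l, gp M s i.succ < K) : ∀ i : Fin (l + 1), s i ≤ i.val * K := by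
  intro i
  obtain ⟨i, hi⟩ := i
  induction i with
  | zero =>
    have h0 : s ⟨0, hi⟩ = 0 := hs.2.2 ⟨0, hi⟩ rfl
    rw [h0]
    exact Nat.zero_le _
  | succ i ih =>
    have h1 := ih (by omega)
    have h2 := h ⟨i, by omega⟩
    rw [gp_succ] at h2
    have e1 : (⟨i, by omega⟩ : Fin l).succ = ⟨i + 1, hi⟩ := rfl
    have e2 : (⟨i, by omega⟩ : Fin l).castSucc = ⟨i, by omega⟩ := rfl
    rw [e1, e2] at h2
    simp only at h1 ⊢
    rw [Nat.add_mul, Nat.one_mul]
    omega

lemma exists_gp {M K : ℕ} {s : Fin (l + 1) → ℕ} (hs : Adm M s) (hK : (l + 1) * K ≤ M) :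
    ∃ i, K ≤ gp M s i := by
  by_contra hc
  push Not at hc
  have h1 := le_of_gp hs (fun i => hc i.succ) (Fin.last l)
  have h2 := hc 0
  rw [gp_zero] at h2
  simp only [Fin.val_last] at h1
  rw [Nat.add_mul, Nat.one_mul] at hK
  omega

lemma gp_lip {M : ℕ} {s s' : Fin (l + 1) → ℕ} {j : Fin (l + 1)}
    (h1 : ∀ k, k ≠ j → s k = s' k) (h2 : s' j = s j + 1) (i : Fin (l + 1)) :
    gp M s i ≤ gp M s' i + 1 ∧ gp M s' i ≤ gp M s i + 1 := by
  have h3 : ∀ k, s k ≤ s' k ∧ s' k ≤ s k + 1 := by
    intro k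
    by_cases hk : k = j
    · subst hk
      omega
    · rw [h1 k hk]
      omega
  unfold gp
  split_ifs with hi
  · have := h3 (Fin.last l)
    omega
  · have e1 := h3 i
    have e2 := h3 ⟨i.val - 1, by omega⟩
    omega

/-- The damping factor. -/
noncomputable def phi (M K : ℕ) (s : Fin (l + 1) → ℕ) (i : Fin (l + 1)) : ℝ :=
  ((min (gp M s i) K : ℕ) : ℝ) / K

lemma phi_nonneg (M K : ℕ) (s : Fin (l + 1) → ℕ) (i : Fin (l + 1)) : 0 ≤ phi M K s i := by
  unfold phi
  positivity

lemma phi_le {M K : ℕ} (hK : 0 < K) (s : Fin (l + 1) → ℕ) (i : Fin (l + 1)) : phi M K s i ≤ 1 := by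
  unfold phi
  have hK' : (0 : ℝ) < K := by exact_mod_cast hK
  rw [div_le_one hK']
  exact_mod_cast Nat.min_le_right _ _

lemma phi_eq {M K : ℕ} (hK : 0 < K) {s : Fin (l + 1) → ℕ} {i : Fin (l + 1)} (h : K ≤ gp M s i) :
    phi M K s i = 1 := by
  unfold phi
  have hK' : (K : ℝ) ≠ 0 := by exact_mod_cast hK.ne'
  rw [Nat.min_eq_right h]
  exact div_self hK'

lemma phi_lip {M K : ℕ} (hK : 0 < K) {s s' : Fin (l + 1) → ℕ}
    {j : Fin (l + 1)} (h1 : ∀ k, k ≠ j → s k = s' k) (h2 : s' j = s j + 1) (i : Fin (l + 1)) :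
    |phi M K s i - phi M K s' i| ≤ 1 / K := by
  have hK' : (0 : ℝ) < K := by exact_mod_cast hK
  unfold phi
  rw [← sub_div, abs_div, abs_of_pos hK']
  refine div_le_div_of_nonneg_right ?_ hK'.le
  have h3 := gp_lip (M := M) h1 h2 i
  have h4 : min (gp M s i) K ≤ min (gp M s' i) K + 1 := by omega
  have h5 : min (gp M s' i) K ≤ min (gp M s i) K + 1 := by omega
  have h6 : ((min (gp M s i) K : ℕ) : ℝ) ≤ ((min (gp M s' i) K : ℕ) : ℝ) + 1 := by exact_mod_cast h4
  have h7 : ((min (gp M s' i) K : ℕ) : ℝ) ≤ ((min (gp M s i) K : ℕ) : ℝ) + 1 := by exact_mod_cast h5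
  rw [abs_le]
  constructor <;> linarith

lemma abs_div_sub {w w' W W' B c1 c2 : ℝ} (hB : 0 < B) (hW : B ≤ W) (hW' : B ≤ W') (hw0 : 0 ≤ w')
    (hw' : w' ≤ W') (h1 : |w - w'| ≤ c1) (h2 : |W - W'| ≤ c2) :
    |w / W - w' / W'| ≤ (c1 + c2) / B := by
  have hW0 : 0 < W := by linarith
  have hW0' : 0 < W' := by linarith
  have e : w / W - w' / W' = (w - w') / W + (w' / W') * ((W' - W) / W) := by
    field_simp
    ring
  have h3 : |(w - w') / W| ≤ c1 / B := by
    rw [abs_div, abs_of_pos hW0]
    exact div_le_div₀ ((abs_nonneg _).trans h1) h1 hB hW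
  have h4 : |(w' / W') * ((W' - W) / W)| ≤ 1 * (c2 / B) := by
    rw [abs_mul, abs_of_nonneg (div_nonneg hw0 hW0'.le), abs_div, abs_of_pos hW0, abs_sub_comm]
    refine mul_le_mul ((div_le_one hW0').2 hw') ?_ (by positivity) zero_le_one
    exact div_le_div₀ ((abs_nonneg _).trans h2) h2 hB hW
  rw [e]
  refine (abs_add_le _ _).trans ?_
  rw [add_div]
  linarith

/-- **A zero of an inward field.** The field `F` on the admissible positions need not be Lipschitz:
the mean of `F` over the roundings of a refined configuration is small. On the faces the field points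
inwards up to `σ`. -/
theorem field_zero_slack (hl : 1 ≤ l) {N : ℕ} (F : (Fin (l + 1) → ℕ) → Fin (l + 1) → ℝ) {B : ℝ}
    (hB : 0 < B) (hbd : ∀ t, Adm N t → ∀ j, |F t j| ≤ B)
    (hsum : ∀ t, Adm N t → ∑ j : Fin l, F t j.succ = 0)
    {σ : ℝ} (hσ : 0 ≤ σ)
    (hgap : ∀ t, Adm N t → ∀ i : Fin l, t i.succ = t i.castSucc → -σ ≤ F t i.succ)
    (hgap0 : ∀ t, Adm N t → t (Fin.last l) = N → -σ ≤ F t 0) {η : ℝ} (hη : σ < η)
    (hvert : ∀ t, Adm N t → (∀ i, t i ≤ 1) → F t 0 ≤ -η) {ε : ℝ} (hε : 0 < ε) :
    ∃ m, 0 < m ∧ ∃ s, Adm (m * N) s ∧ ∀ j, |fhat F m s j| ≤ ε + l * σ := by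
  classical
  -- `N` is positive
  have hN : 1 ≤ N := by
    by_contra hc
    have hN0 : N = 0 := by omega
    have ha : Adm N (fun _ : Fin (l + 1) => 0) :=
      ⟨fun _ _ _ => le_rfl, fun _ => Nat.zero_le _, fun _ _ => rfl⟩
    have h1 := hgap0 _ ha hN0.symm
    have h2 := hvert _ ha (fun _ => Nat.zero_le _)
    linarith
  have hl' : (1 : ℝ) ≤ l := by exact_mod_cast hl
  set Lr : ℝ := ((l + 1 : ℕ) : ℝ) with hLr
  have hLr1 : 1 ≤ Lr := by rw [hLr]; push_cast; linarith
  set e : ℝ := min ε (η - σ) / (4 * l) with he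
  have hησ : 0 < η - σ := sub_pos.2 hη
  have he0 : 0 < e := by rw [he]; positivity
  have heε : 4 * l * e ≤ ε := by
    rw [he]
    have : 4 * (l : ℝ) * (min ε (η - σ) / (4 * l)) = min ε (η - σ) := by
      field_simp
    rw [this]
    exact min_le_left _ _
  have heη : 4 * l * e ≤ η - σ := by
    rw [he]
    have : 4 * (l : ℝ) * (min ε (η - σ) / (4 * l)) = min ε (η - σ) := by
      field_simp
    rw [this]
    exact min_le_right _ _
  have hle : e ≤ l * e := by nlinarith
  set D : ℝ := 6 * Lr ^ 5 * (Lr + 1) with hD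
  have hD0 : 0 < D := by rw [hD]; positivity
  -- the parameters
  obtain ⟨K, hK⟩ := exists_nat_gt (6 * B * D / e)
  have hK0 : 0 < K := by
    have : (0 : ℝ) < K := lt_trans (by positivity) hK
    exact_mod_cast this
  have hKr : (0 : ℝ) < K := by exact_mod_cast hK0
  obtain ⟨m, hm⟩ := exists_nat_gt (4 * B * D / e + 2 * B * K / e + Lr * K)
  have hm1 : 4 * B * D / e < m := by
    have : 0 ≤ 2 * B * K / e + Lr * K := by positivity
    linarith
  have hm2 : 2 * B * K / e < m := by
    have : 0 ≤ 4 * B * D / e + Lr * K := by positivity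
    linarith
  have hm3 : Lr * K < m := by
    have : 0 ≤ 4 * B * D / e + 2 * B * K / e := by positivity
    linarith
  have hmr : (0 : ℝ) < m := lt_trans (by positivity) hm1
  have hm0 : 0 < m := by exact_mod_cast hmr
  have hmK : (l + 1) * K ≤ m := by
    have : (((l + 1) * K : ℕ) : ℝ) < m := by
      rw [hLr] at hm3
      push_cast at hm3 ⊢
      exact hm3
    exact_mod_cast this.le
  have hmNK : (l + 1) * K ≤ m * N := hmK.trans (Nat.le_mul_of_pos_right _ hN)
  set cw : ℝ := 3 * B / K + 2 * B / m with hcw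
  have hcw0 : 0 ≤ cw := by rw [hcw]; positivity
  have hDcw : D * cw ≤ e := by
    have h1 : D * (3 * B / K) ≤ e / 2 := by
      rw [div_lt_iff₀ he0] at hK
      rw [mul_div_assoc', div_le_iff₀ hKr]
      linarith
    have h2 : D * (2 * B / m) ≤ e / 2 := by
      rw [div_lt_iff₀ he0] at hm1
      rw [mul_div_assoc', div_le_iff₀ hmr]
      linarith
    rw [hcw, mul_add]
    linarith
  have hKm : 2 * B * K / m ≤ e := by
    rw [div_lt_iff₀ he0] at hm2
    rw [div_le_iff₀ hmr]
    linarith
  -- the bound of the mean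
  have hfb : ∀ s, Adm (m * N) s → ∀ j, |fhat F m s j| ≤ B := by
    intro s hs j
    rw [abs_le]
    constructor
    · exact le_fhat hm0 fun θ hθ => (abs_le.1 (hbd _ (rnd_adm hm0 hθ hs) j)).1
    · exact fhat_le hm0 fun θ hθ => (abs_le.1 (hbd _ (rnd_adm hm0 hθ hs) j)).2
  -- the weights
  let w : (Fin (l + 1) → ℕ) → Fin (l + 1) → ℝ := fun s i =>
    phi (m * N) K s i * (2 * B - fhat F m s i)
  let W : (Fin (l + 1) → ℕ) → ℝ := fun s => ∑ i, w s i
  have hw0 : ∀ s, Adm (m * N) s → ∀ i, 0 ≤ w s i := by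
    intro s hs i
    have := abs_le.1 (hfb s hs i)
    exact mul_nonneg (phi_nonneg _ _ _ _) (by linarith)
  have hw3 : ∀ s, Adm (m * N) s → ∀ i, w s i ≤ 3 * B := by
    intro s hs i
    have h1 := abs_le.1 (hfb s hs i)
    have h2 := phi_le (M := m * N) hK0 s i
    have h3 := phi_nonneg (m * N) K s i
    show phi (m * N) K s i * (2 * B - fhat F m s i) ≤ 3 * B
    nlinarith
  have hWB : ∀ s, Adm (m * N) s → B ≤ W s := by
    intro s hs
    obtain ⟨i, hi⟩ := exists_gp hs hmNK
    have h1 := abs_le.1 (hfb s hs i)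
    have h2 : w s i = 2 * B - fhat F m s i := by
      show phi (m * N) K s i * (2 * B - fhat F m s i) = _
      rw [phi_eq hK0 hi, one_mul]
    have h3 : w s i ≤ W s := Finset.single_le_sum (fun j _ => hw0 s hs j) (Finset.mem_univ i)
    linarith
  have hWL : ∀ s, Adm (m * N) s → W s ≤ 3 * B * Lr := by
    intro s hs
    calc W s ≤ ∑ _i : Fin (l + 1), 3 * B := Finset.sum_le_sum fun i _ => hw3 s hs i
      _ = 3 * B * Lr := by
        rw [Finset.sum_const, Finset.card_univ, Fintype.card_fin, nsmul_eq_mul, hLr, mul_comm]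
  have hwl : ∀ s s', Adm (m * N) s → Adm (m * N) s' → ∀ j, (∀ k, k ≠ j → s k = s' k) →
      s' j = s j + 1 → ∀ i, |w s i - w s' i| ≤ cw := by
    intro s s' hs hs' j h1 h2 i
    have h3 := phi_lip (M := m * N) hK0 h1 h2 i
    have h4 := fhat_lip hm0 hB.le hbd hs hs' h1 h2 i
    have h5 := phi_le (M := m * N) hK0 s' i
    have h6 := phi_nonneg (m * N) K s' i
    have h7 := abs_le.1 (hfb s hs i)
    have e1 : w s i - w s' i = (phi (m * N) K s i - phi (m * N) K s' i) * (2 * B - fhat F m s i) +
        phi (m * N) K s' i * (fhat F m s' i - fhat F m s i) := by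
      show phi (m * N) K s i * (2 * B - fhat F m s i) -
        phi (m * N) K s' i * (2 * B - fhat F m s' i) = _
      ring
    rw [e1]
    refine (abs_add_le _ _).trans ?_
    rw [abs_mul, abs_mul, abs_of_nonneg h6, abs_sub_comm (fhat F m s' i), hcw]
    refine add_le_add ?_ ?_
    · have h8 : |2 * B - fhat F m s i| ≤ 3 * B := by
        rw [abs_le]
        constructor <;> linarith
      calc |phi (m * N) K s i - phi (m * N) K s' i| * |2 * B - fhat F m s i| ≤
            (1 / K) * (3 * B) := mul_le_mul h3 h8 (abs_nonneg _) (by positivity)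
        _ = 3 * B / K := by ring
    · calc phi (m * N) K s' i * |fhat F m s i - fhat F m s' i| ≤
            1 * (2 * B * ((1 : ℕ) : ℝ) / m) := mul_le_mul h5 h4 (abs_nonneg _) zero_le_one
        _ = 2 * B / m := by push_cast; ring
  -- the lemma of Knaster, Kuratowski and Mazurkiewicz
  obtain ⟨s, hs, hsm⟩ := discrete_kkm (l + 1) (Nat.succ_pos l) (m * N) (fun s i => w s i / W s) 1
    ((cw + Lr * cw) / B) (by positivity)
    (fun s hs i => div_nonneg (hw0 s hs i) (hB.le.trans (hWB s hs)))
    (fun s hs => by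
      rw [← Finset.sum_div]
      exact div_self (by have := hWB s hs; linarith))
    (fun s hs i j hij hsij => by
      have h1 : gp (m * N) s i = 0 := by
        unfold gp
        rw [if_neg (by omega)]
        have e1 : (⟨i.val - 1, by omega⟩ : Fin (l + 1)) = j := Fin.ext (by simp; omega)
        rw [e1, hsij, Nat.sub_self]
      have h2 : w s i = 0 := by
        show phi (m * N) K s i * (2 * B - fhat F m s i) = 0
        unfold phi
        rw [h1]
        simp
      simp only [h2, zero_div])
    (fun s hs i j hi hj hsj => by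
      have h1 : gp (m * N) s i = 0 := by
        unfold gp
        rw [if_pos hi]
        have e1 : Fin.last l = j := Fin.ext (by simp; omega)
        rw [e1, hsj, Nat.sub_self]
      have h2 : w s i = 0 := by
        show phi (m * N) K s i * (2 * B - fhat F m s i) = 0
        unfold phi
        rw [h1]
        simp
      simp only [h2, zero_div])
    (fun s s' hs hs' j h1 h2 i => by
      have h3 : |W s - W s'| ≤ Lr * cw := by
        show |∑ i, w s i - ∑ i, w s' i| ≤ Lr * cw
        rw [← Finset.sum_sub_distrib]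
        refine (Finset.abs_sum_le_sum_abs _ _).trans ?_
        calc ∑ i, |w s i - w s' i| ≤ ∑ _i : Fin (l + 1), cw :=
              Finset.sum_le_sum fun i _ => hwl s s' hs hs' j h1 h2 i
          _ = Lr * cw := by
            rw [Finset.sum_const, Finset.card_univ, Fintype.card_fin, nsmul_eq_mul, hLr]
      exact abs_div_sub hB (hWB s hs) (hWB s' hs') (hw0 s' hs' i)
        (Finset.single_le_sum (fun j _ => hw0 s' hs' j) (Finset.mem_univ i))
        (hwl s s' hs hs' j h1 h2 i) h3)
  refine ⟨m, hm0, s, hs, ?_⟩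
  -- all the weights are nearly equal
  set lam : ℝ := W s / Lr with hlam
  have hWs0 : 0 < W s := lt_of_lt_of_le hB (hWB s hs)
  have hwe : ∀ i, |w s i - lam| ≤ e := by
    intro i
    have h1 := hsm i
    have e1 : w s i - lam = W s * (w s i / W s - 1 / Lr) := by
      rw [hlam]
      field_simp
    rw [e1, abs_mul, abs_of_pos hWs0]
    have h2 : |w s i / W s - 1 / Lr| ≤ 2 * ((cw + Lr * cw) / B) * Lr ^ 4 := h1
    calc W s * |w s i / W s - 1 / Lr| ≤ (3 * B * Lr) * (2 * ((cw + Lr * cw) / B) * Lr ^ 4) :=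
          mul_le_mul (hWL s hs) h2 (abs_nonneg _) (by positivity)
      _ = D * cw := by
        rw [hD]
        field_simp
        ring
      _ ≤ e := hDcw
  -- far from the face: `F = A - lam`, near the face `F ≥ - e`, and always `F ≤ A - lam + e`
  have hup : ∀ i, fhat F m s i ≤ 2 * B - lam + e := by
    intro i
    have h1 := abs_le.1 (hwe i)
    have h2 := abs_le.1 (hfb s hs i)
    have h3 := phi_le (M := m * N) hK0 s i
    have h4 : w s i ≤ 2 * B - fhat F m s i := by
      show phi (m * N) K s i * (2 * B - fhat F m s i) ≤ _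
      have : 0 ≤ 2 * B - fhat F m s i := by linarith
      nlinarith
    linarith
  have hfar : ∀ i, K ≤ gp (m * N) s i → 2 * B - lam - e ≤ fhat F m s i := by
    intro i hi
    have h1 := abs_le.1 (hwe i)
    have h4 : w s i = 2 * B - fhat F m s i := by
      show phi (m * N) K s i * (2 * B - fhat F m s i) = _
      rw [phi_eq hK0 hi, one_mul]
    linarith
  have hnear : ∀ i, gp (m * N) s i < K → -(e + σ) ≤ fhat F m s i := by
    intro i hi
    have hd : ∀ d : ℕ, d < K → 2 * B * d / m ≤ e := by
      intro d hdK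
      refine le_trans ?_ hKm
      have : (d : ℝ) ≤ K := by exact_mod_cast hdK.le
      refine div_le_div_of_nonneg_right ?_ hmr.le
      exact mul_le_mul_of_nonneg_left this (by linarith)
    refine Fin.cases ?_ (fun i => ?_) i hi
    · intro hi
      rw [gp_zero] at hi
      have hs1 := hs.2.1 (Fin.last l)
      set s' : Fin (l + 1) → ℕ := Function.update s (Fin.last l) (m * N) with hs'
      have hs'A : Adm (m * N) s' := by
        refine ⟨?_, ?_, ?_⟩
        · intro a b hab
          rw [hs']
          by_cases hb : b = Fin.last l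
          · subst hb
            rw [Function.update_self]
            by_cases ha : a = Fin.last l
            · rw [ha, Function.update_self]
            · rw [Function.update_of_ne ha]
              exact hs.2.1 a
          · have ha : a ≠ Fin.last l := by
              intro ha
              rw [ha] at hab
              exact hb (le_antisymm (Fin.le_last _) hab)
            rw [Function.update_of_ne hb, Function.update_of_ne ha]
            exact hs.1 hab
        · intro a
          rw [hs']
          by_cases ha : a = Fin.last l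
          · rw [ha, Function.update_self]
          · rw [Function.update_of_ne ha]
            exact hs.2.1 a
        · intro a ha
          rw [hs']
          have ha' : a ≠ Fin.last l := by
            intro h
            rw [h] at ha
            simp at ha
            omega
          rw [Function.update_of_ne ha']
          exact hs.2.2 a ha
      have h1 := fhat_lip (d := m * N - s (Fin.last l)) hm0 hB.le hbd hs hs'A
        (j := Fin.last l) (fun k hk => by rw [hs', Function.update_of_ne hk])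
        (by rw [hs', Function.update_self]; omega) 0
      have h2 := hd _ hi
      have h3 : -σ ≤ fhat F m s' 0 := by
        refine le_fhat hm0 fun θ hθ => hgap0 _ (rnd_adm hm0 hθ hs'A) ?_
        show (s' (Fin.last l) + θ) / m = N
        rw [hs', Function.update_self, Nat.mul_add_div hm0, Nat.div_eq_of_lt hθ,
          Nat.add_zero]
      have h4 := abs_le.1 h1
      linarith
    · intro hi
      rw [gp_succ] at hi
      have hs1 : s i.castSucc ≤ s i.succ := hs.1 (Fin.castSucc_lt_succ).le
      set s' : Fin (l + 1) → ℕ := Function.update s i.succ (s i.castSucc) with hs'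
      have hs'A : Adm (m * N) s' := by
        refine ⟨?_, ?_, ?_⟩
        · intro a b hab
          rw [hs']
          by_cases hb : b = i.succ
          · by_cases ha : a = i.succ
            · rw [ha, hb]
            · subst hb
              rw [Function.update_self, Function.update_of_ne ha]
              apply hs.1
              rw [Fin.le_def] at hab ⊢
              have : a.val ≠ i.succ.val := fun h => ha (Fin.ext h)
              simp only [Fin.val_succ, Fin.val_castSucc] at *
              omega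
          · rw [Function.update_of_ne hb]
            by_cases ha : a = i.succ
            · rw [ha, Function.update_self]
              rw [ha] at hab
              exact hs1.trans (hs.1 hab)
            · rw [Function.update_of_ne ha]
              exact hs.1 hab
        · intro a
          rw [hs']
          by_cases ha : a = i.succ
          · rw [ha, Function.update_self]
            exact hs.2.1 _
          · rw [Function.update_of_ne ha]
            exact hs.2.1 a
        · intro a ha
          rw [hs']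
          have ha' : a ≠ i.succ := by
            intro h
            rw [h] at ha
            simp at ha
          rw [Function.update_of_ne ha']
          exact hs.2.2 a ha
      have h1 := fhat_lip (d := s i.succ - s i.castSucc) hm0 hB.le hbd hs'A hs
        (j := i.succ) (fun k hk => by rw [hs', Function.update_of_ne hk])
        (by rw [hs', Function.update_self]; omega) i.succ
      have h2 := hd _ hi
      have h3 : -σ ≤ fhat F m s' i.succ := by
        refine le_fhat hm0 fun θ hθ => hgap _ (rnd_adm hm0 hθ hs'A) i ?_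
        show (s' i.succ + θ) / m = (s' i.castSucc + θ) / m
        rw [hs', Function.update_self, Function.update_of_ne (Fin.castSucc_lt_succ).ne]
      have h4 := abs_le.1 h1
      linarith
  -- the sum of the components other than 0 is 0
  have hsum' : ∑ j : Fin l, fhat F m s j.succ = 0 := by
    unfold fhat
    rw [← Finset.sum_div, Finset.sum_comm, Finset.sum_eq_zero, zero_div]
    intro θ hθ
    exact hsum _ (rnd_adm hm0 (Finset.mem_range.1 hθ) hs)
  have hAl : -e ≤ 2 * B - lam := by
    have h1 : ∑ j : Fin l, fhat F m s j.succ ≤ ∑ _j : Fin l, (2 * B - lam + e) :=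
      Finset.sum_le_sum fun j _ => hup j.succ
    rw [hsum', Finset.sum_const, Finset.card_univ, Fintype.card_fin, nsmul_eq_mul] at h1
    have h2 : 0 ≤ 2 * B - lam + e := by
      by_contra hc
      push Not at hc
      nlinarith
    linarith
  have hlow : ∀ i, -(2 * e + σ) ≤ fhat F m s i := by
    intro i
    rcases lt_or_ge (gp (m * N) s i) K with h | h
    · have := hnear i h
      linarith
    · have := hfar i h
      linarith
  have hupj : ∀ j : Fin l, fhat F m s j.succ ≤ (l - 1) * (2 * e + σ) := by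
    intro j
    have h1 := Finset.add_sum_erase Finset.univ (fun j : Fin l => fhat F m s j.succ)
      (Finset.mem_univ j)
    have h2 : ∑ _i ∈ Finset.univ.erase j, -(2 * e + σ) ≤
        ∑ i ∈ Finset.univ.erase j, fhat F m s i.succ := Finset.sum_le_sum fun i _ => hlow i.succ
    rw [Finset.sum_const, Finset.card_erase_of_mem (Finset.mem_univ _), Finset.card_univ,
      Fintype.card_fin, nsmul_eq_mul, Nat.cast_sub hl, Nat.cast_one] at h2
    linarith
  have hup0 : fhat F m s 0 ≤ (l - 1) * (2 * e + σ) + 2 * e := by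
    by_cases hf : ∃ j : Fin l, K ≤ gp (m * N) s j.succ
    · obtain ⟨j, hj⟩ := hf
      have h1 := hfar _ hj
      have h2 := hupj j
      have h3 := hup 0
      linarith
    · exfalso
      push Not at hf
      have h1 := le_of_gp hs hf
      have h2 : fhat F m s 0 ≤ -η := by
        refine fhat_le hm0 fun θ hθ => hvert _ (rnd_adm hm0 hθ hs) fun i => ?_
        show (s i + θ) / m ≤ 1
        have h3 := h1 i
        have h4 : i.val * K ≤ l * K := Nat.mul_le_mul_right _ (Nat.lt_succ_iff.1 i.2)
        rw [Nat.add_mul, Nat.one_mul] at hmK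
        rw [← Nat.lt_succ_iff, Nat.div_lt_iff_lt_mul hm0]
        omega
      have h3 := hlow 0
      nlinarith
  intro j
  rw [abs_le]
  constructor
  · have h1 := hlow j
    nlinarith
  · refine Fin.cases ?_ (fun j => ?_) j
    · nlinarith
    · have := hupj j
      nlinarith

/-- The case without slack. -/
theorem field_zero (hl : 1 ≤ l) {N : ℕ} (F : (Fin (l + 1) → ℕ) → Fin (l + 1) → ℝ) {B : ℝ}
    (hB : 0 < B) (hbd : ∀ t, Adm N t → ∀ j, |F t j| ≤ B)
    (hsum : ∀ t, Adm N t → ∑ j : Fin l, F t j.succ = 0)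
    (hgap : ∀ t, Adm N t → ∀ i : Fin l, t i.succ = t i.castSucc → 0 ≤ F t i.succ)
    (hgap0 : ∀ t, Adm N t → t (Fin.last l) = N → 0 ≤ F t 0) {η : ℝ} (hη : 0 < η)
    (hvert : ∀ t, Adm N t → (∀ i, t i ≤ 1) → F t 0 ≤ -η) {ε : ℝ} (hε : 0 < ε) :
    ∃ m, 0 < m ∧ ∃ s, Adm (m * N) s ∧ ∀ j, |fhat F m s j| ≤ ε := by
  obtain ⟨m, hm, s, hs, h⟩ := field_zero_slack hl F hB hbd hsum (σ := 0) le_rfl
    (fun t ht i hi => by rw [neg_zero]; exact hgap t ht i hi)
    (fun t ht hi => by rw [neg_zero]; exact hgap0 t ht hi) hη hvert hε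
  refine ⟨m, hm, s, hs, fun j => ?_⟩
  have := h j
  rwa [mul_zero, add_zero] at this

end Pool.Agent.H69L.TP
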